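import Pool.Agent.Lib.MP_099f24_an.Final

/-!
# A local minimizer of the Mumford-Shah energy whose discontinuity set is a closed loop
(MP_099f24_an)

The domain `Ω` is the image of the thin annulus `| log |q| | < δ`, `δ = 10⁻⁴`, under
`Φ(q) = 3q - 2/q - 1/(9q³)`, and `u` is `Re (q + 1/q)` on the outer side `|q| > 1` and `-8` on
`|q| ≤ 1`.  The loop `Γ = Φ({|q| = 1})` satisfies the Euler-Lagrange equation: its curvature is
`|∇u|²` on the outer side.  Minimality is proved by a calibration: a vector field `Ψ(x, t)` with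
`|∂_t Ψ|²/4 ≤ -div_x Ψ` and `|Ψ(x, t) - Ψ(x, s)| ≤ 1`, with equality along the graph of `u` and on
the jump, together with the chain rule for `Ψ(x, w(x))`, `w ∈ SBV_loc(Ω)`.

A closed loop is not the union of an admissible family: the arcs contained in it are compact and
pairwise disjoint, so there would be only one, and a closed loop is not an injective image of an
interval.
-/

namespace Pool.Agent.Results.MP_099f24_an.ClosedLoop

open Set Pool.Agent.MP099f24
open scoped ContDiff

/-- There are a connected open set `Ω` of the plane and a local minimizer `u ∈ 𝓜(Ω)` whose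
discontinuity set `S_u` is a simple closed regular smooth curve in `Ω`, and `Ω ∩ closure S_u` is
not the union of an admissible family of arcs. -/
theorem result : ∃ Ω : Set ℂ, IsOpen Ω ∧ IsConnected Ω ∧ ∃ u : ℂ → ℝ, IsLocalMinimizer Ω u ∧
    (∃ c : ℝ → ℂ, ContDiff ℝ ∞ c ∧ (∀ t, deriv c t ≠ 0) ∧ (∀ t, c (t + 2 * Real.pi) = c t) ∧
      InjOn c (Ico 0 (2 * Real.pi)) ∧ discSet Ω u = range c) ∧
    ¬ IsAdmissibleUnion Ω (Ω ∩ closure (discSet Ω u)) :=
  ⟨Om, isOpen_Om, isConnected_Om, uu, isLocalMinimizer_uu,
    ⟨loop, loop_contDiff, sbvu_deriv_loop_ne, loop_period, sbvu_loop_injOn, discSet_uu⟩,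
    not_admissible_uu⟩

end Pool.Agent.Results.MP_099f24_an.ClosedLoop
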