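import Mathlib
import Pool.Agent.Lib.MP_099f24_an.DG.Class

/-!
# De Giorgi's classification of the local minimizers of the Mumford-Shah energy in the plane
-/

set_option autoImplicit false

open Set MeasureTheory Pool.Agent.MP099f24

/-- **Classification of `𝓜(ℝ²)`.**  Let `u` be a local minimizer of the Mumford-Shah energy in the
whole plane.  Then either `S_u` is empty and `u` is (a.e. equal to) a constant, or
`closure S_u` is a half line `{a - t e : t ≥ 0}` and `u` is (a.e. equal to) the crack-tip function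
m ± √(2ρ/π) sin(θ/2) with tip `a`, where `ρ`, `θ` (with `-π < θ ≤ π`) are the polar coordinates of
`x - a` with respect to the direction `e`. -/
theorem Pool.Agent.Results.MP_099f24_an.DeGiorgi.result {u : ℂ → ℝ}
    (hu : IsLocalMinimizer univ u) :
    (closure (discSet univ u) = ∅ ∧ ∃ c : ℝ, ∀ᵐ x, u x = c) ∨
    ∃ (a e : ℂ) (m ε : ℝ), ‖e‖ = 1 ∧ (ε = 1 ∨ ε = -1) ∧
      closure (discSet univ u) = {z | ∃ t : ℝ, 0 ≤ t ∧ z = a - t * e} ∧
      ∀ᵐ x, u x = m + ε * ctip e (x - a) :=
  dg_class hu
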