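import Mathlib
import Pool.Agent.Lib.MP_099f24_an.MF.Ms
import Pool.Agent.Lib.MP_099f24_an.GA.Sub
import Pool.Agent.Lib.MP_099f24_an.GA.General

/-!
# The weak form of the Mumford-Shah conjecture in the plane
-/

set_option autoImplicit false

open Set Pool.Agent.MP099f24

/-- **The weak form of the Mumford-Shah conjecture.**  Let `u` be a local minimizer of the
Mumford-Shah energy in the open set `Ω` and `K = Ω ∩ closure S_u`.

1. Every point of `K` is a regular point (near it `K` is the graph of a `C¹` function), a tip (near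
it `K` is one arc ending there) or a triple point (three arcs ending there with angles `2π/3`).
2. No bounded nonempty open set whose closure lies in `Ω` has its boundary in `K`.
3. `K` is a network: a locally finite disjoint union of vertices, open `C¹` arcs and closed `C¹`
loops; each end of each arc leaves every compact subset of `Ω` or tends to a vertex; each vertex is
the limit of exactly one end, or of exactly three ends with pairwise angles `2π/3`.
4. For every open `B ⊆ Ω` without holes (every disc, and `B = Ω` if `Ω` has no holes), the set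
`B ∩ closure S_u` is the union of the images of an admissible family of arcs in `B`, exactly as in
the question, and all the arcs are regular. -/
theorem Pool.Agent.Results.MP_099f24_an.MumfordShah.result {Ω : Set ℂ} (hΩ : IsOpen Ω) {u : ℂ → ℝ}
    (hu : IsLocalMinimizer Ω u) :
    (∀ p ∈ Ω ∩ closure (discSet Ω u), IsRegPt (Ω ∩ closure (discSet Ω u)) p ∨
      IsTip (Ω ∩ closure (discSet Ω u)) p ∨ IsTriple (Ω ∩ closure (discSet Ω u)) p) ∧
    NoRegion Ω (Ω ∩ closure (discSet Ω u)) ∧
    (∃ (ι κ : Type) (a b : ι → ℝ) (c : ι → ℝ → ℂ) (T : κ → ℝ) (d : κ → ℝ → ℂ) (V : Set ℂ),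
      IsNetwork Ω (Ω ∩ closure (discSet Ω u)) V a b c T d) ∧
    ∀ B : Set ℂ, IsOpen B → B ⊆ Ω → NoHoles B →
      ∃ (ι : Type) (I : ι → Set ℝ) (γ : ι → ℝ → ℂ), IsAdmissible B I γ ∧
        B ∩ closure (discSet Ω u) = ⋃ i, γ i '' I i ∧
        ∀ i, ∀ t ∈ interior (I i), deriv (γ i) t ≠ 0 := by
  have hloc := ms_local hΩ hu
  have hN := ms_noregion hΩ hu
  have hc : IsClosed ((Ω ∩ closure (discSet Ω u)) ∪ Ωᶜ) := by
    have : (Ω ∩ closure (discSet Ω u)) ∪ Ωᶜ = closure (discSet Ω u) ∪ Ωᶜ := by
      ext z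
      simp only [mem_union, mem_inter_iff, mem_compl_iff]
      tauto
    rw [this]
    exact isClosed_closure.union hΩ.isClosed_compl
  refine ⟨hloc, hN, ga_general hΩ inter_subset_left hc hloc, ?_⟩
  intro B hB hBΩ hH
  obtain ⟨ι, I, γ, h1, h2, h3⟩ := ga_sub inter_subset_left hc hloc hN hB hBΩ hH
  refine ⟨ι, I, γ, h1, ?_, h3⟩
  rw [← h2]
  ext z
  constructor
  · rintro ⟨h4, h5⟩
    exact ⟨⟨hBΩ h4, h5⟩, h4⟩
  · rintro ⟨⟨-, h5⟩, h4⟩
    exact ⟨h4, h5⟩
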