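import Pool.Agent.Lib.MP_099f24_an.SD.Fin

/-!
# Sharp energy density of the local minimizers of the Mumford-Shah energy (MP_099f24_an)

For every local minimizer `u` of the Mumford-Shah energy in an open set `Ω` of the plane:
* `min (2, E(u, B_r(a)) / r)` is a nondecreasing function of `r`, for every centre `a`;
* `E(u, B_t(x) ∖ closedB_s(x)) ≥ 2 (t - s)` at every point `x` of `Ω ∩ closure S_u`; in particular
  `E(u, B_r(x)) ≥ 2 r`;
* if `E(u, B_r(x)) = 2 r`, then in `B_r(x)` the function `u` is either equal to two constants on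
  the two sides of a diameter, or a crack-tip function (up to its sign and an additive constant).

The proof combines four competitors on almost every circle (the homogeneous extension of degree
`1/2`, the force balance (a translation of a disc), the first variation along the radial field and
the constant function), the coarea inequality and an area formula for the jump set; the equality
case uses the radial evolution of the Fourier coefficients of `u`.
-/

namespace Pool.Agent.Results.MP_099f24_an.SharpDensity

open Set Metric MeasureTheory Pool.Agent.MP099f24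
open scoped ENNReal

theorem result {Ω : Set ℂ} (hΩ : IsOpen Ω) {u : ℂ → ℝ} (hu : IsLocalMinimizer Ω u) :
    (∀ (a : ℂ) (s t : ℝ), 0 < s → s ≤ t → ball a t ⊆ Ω →
      min 2 (energy Ω u (ball a s) / ENNReal.ofReal s) ≤
        min 2 (energy Ω u (ball a t) / ENNReal.ofReal t)) ∧
    ∀ x ∈ Ω ∩ closure (discSet Ω u), ∀ r : ℝ, 0 < r → ball x r ⊆ Ω →
      (∀ s t : ℝ, 0 ≤ s → s ≤ t → t ≤ r →
        ENNReal.ofReal (2 * (t - s)) ≤ energy Ω u (ball x t \ closedBall x s)) ∧
      ENNReal.ofReal (2 * r) ≤ energy Ω u (ball x r) ∧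
      (energy Ω u (ball x r) = ENNReal.ofReal (2 * r) →
        (∃ (c₁ c₂ : ℝ) (ν : ℂ), c₁ ≠ c₂ ∧ ‖ν‖ = 1 ∧
          (∀ᵐ y ∂(volume.restrict (halfBall x ν r)), u y = c₁) ∧
          ∀ᵐ y ∂(volume.restrict (halfBall x (-ν) r)), u y = c₂) ∨
        ∃ (c : ℝ) (e : ℂ), ‖e‖ = 1 ∧
          ((∀ᵐ y ∂(volume.restrict (ball x r)), u y = c + ctip e (y - x)) ∨
            ∀ᵐ y ∂(volume.restrict (ball x r)), u y = c - ctip e (y - x))) := by
  refine ⟨fun a s t hs hst hb => truncated_mono hΩ hu hs hst hb, fun x hx r hr hb => ?_⟩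
  obtain ⟨h1, h2⟩ := sharp_density hΩ hu hx.1 hx.2 hr hb
  refine ⟨h1, ?_, h2⟩
  have h3 := h1 0 r le_rfl hr.le le_rfl
  rw [sub_zero] at h3
  refine h3.trans ?_
  obtain ⟨u', g, j, h, -, hdisc, hen⟩ := exists_MSMin hΩ hu
  rw [hen _ (measurableSet_ball.diff measurableSet_closedBall) (sdiff_subset.trans hb),
    hen _ measurableSet_ball hb]
  exact add_le_add (lintegral_mono_set sdiff_subset)
    (measure_mono (inter_subset_inter_right _ sdiff_subset))

end Pool.Agent.Results.MP_099f24_an.SharpDensity
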